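import Pool.Agent.N650.GN.Mt1xB

/-!
# GN/XMT1, part 3: the averages (helper650)
-/

set_option autoImplicit false

namespace Pool.Agent.N650.GN

open Finset
open Pool.Agent.N782.GN hiding om
open Pool.Agent.N521.GN

theorem rp20 {x y : ℝ} (hx : 0 ≤ x) (hy : 0 ≤ y) (h : x ≤ y ^ 20) : x ^ (1 / 20 : ℝ) ≤ y := by
  calc x ^ (1 / 20 : ℝ) ≤ (y ^ 20) ^ (1 / 20 : ℝ) := Real.rpow_le_rpow hx h (by norm_num)
    _ = y := by
      rw [← Real.rpow_natCast, ← Real.rpow_mul hy]
      norm_num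

/-- the recursion is a contraction -/
theorem cc {p : ℕ} (hp : p.Prime) : 0 ≤ (1 + ch p) / p ∧
    (1 + ch p) / p * (p : ℝ) ^ (1 / 20 : ℝ) + |ch p| / p * ((p : ℝ) * p) ^ (1 / 20 : ℝ) ≤
      9 / 10 := by
  rcases ch_cases hp with ⟨h1, h2⟩ | ⟨h1, h2⟩ | ⟨h1, h2⟩
  · subst h1
    rw [h2]
    refine ⟨by norm_num, ?_⟩
    have h3 : ((2 : ℕ) : ℝ) ^ (1 / 20 : ℝ) ≤ 9 / 5 :=
      rp20 (by norm_num) (by norm_num) (by norm_num)
    rw [abs_zero, zero_div, zero_mul, add_zero]
    push_cast at h3 ⊢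
    linarith
  · rw [h2]
    have h3 : (3 : ℝ) ≤ p := by exact_mod_cast h1
    refine ⟨by norm_num, ?_⟩
    have h4 : ((p : ℝ) * p) ^ (1 / 20 : ℝ) ≤ 9 / 10 * p := by
      refine rp20 (by positivity) (by positivity) ?_
      have h5 : (27 / 10 : ℝ) ≤ 9 / 10 * p := by linarith
      have h6 : (27 / 10 : ℝ) ^ 18 ≤ (9 / 10 * p) ^ 18 := pow_le_pow_left₀ (by norm_num) h5 18
      calc (p : ℝ) * p ≤ (27 / 10 : ℝ) ^ 18 * (9 / 10 * p) ^ 2 := by
            have : (2 : ℝ) ≤ (27 / 10 : ℝ) ^ 18 := by norm_num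
            nlinarith [mul_self_nonneg (p : ℝ)]
        _ ≤ (9 / 10 * p) ^ 18 * (9 / 10 * p) ^ 2 := mul_le_mul_of_nonneg_right h6 (by positivity)
        _ = _ := by ring
    have h7 : |(-1 : ℝ)| / p * ((p : ℝ) * p) ^ (1 / 20 : ℝ) ≤ 9 / 10 := by
      rw [abs_neg, abs_one, div_mul_eq_mul_div, one_mul, div_le_iff₀ (by linarith)]
      exact h4
    have h8 : (1 + -1 : ℝ) / p * (p : ℝ) ^ (1 / 20 : ℝ) = 0 := by norm_num
    rw [h8, zero_add]
    exact h7
  · rw [h2]
    have h3 : (5 : ℝ) ≤ p := by exact_mod_cast h1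
    refine ⟨by positivity, ?_⟩
    have h5 : (5 / 4 : ℝ) ≤ p / 4 := by linarith
    have h6 : (5 / 4 : ℝ) ^ 18 ≤ ((p : ℝ) / 4) ^ 18 := pow_le_pow_left₀ (by norm_num) h5 18
    have h9 : (p : ℝ) * p ≤ ((p : ℝ) / 4) ^ 20 := by
      calc (p : ℝ) * p ≤ (5 / 4 : ℝ) ^ 18 * ((p : ℝ) / 4) ^ 2 := by
            have : (16 : ℝ) ≤ (5 / 4 : ℝ) ^ 18 := by norm_num
            nlinarith [mul_self_nonneg (p : ℝ)]
        _ ≤ ((p : ℝ) / 4) ^ 18 * ((p : ℝ) / 4) ^ 2 := mul_le_mul_of_nonneg_right h6 (by positivity)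
        _ = _ := by ring
    have h4 : ((p : ℝ) * p) ^ (1 / 20 : ℝ) ≤ p / 4 := rp20 (by positivity) (by positivity) h9
    have h10 : (p : ℝ) ^ (1 / 20 : ℝ) ≤ p / 4 :=
      rp20 (by positivity) (by positivity) (le_trans (by nlinarith) h9)
    have e1 : (1 + 1 : ℝ) / p * (p / 4) = 1 / 2 := by
      field_simp
      norm_num
    have e2 : |(1 : ℝ)| / p * (p / 4) = 1 / 4 := by
      rw [abs_one]
      field_simp
    have h11 : (1 + 1 : ℝ) / p * (p : ℝ) ^ (1 / 20 : ℝ) ≤ (1 + 1 : ℝ) / p * (p / 4) := by gcongr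
    have h12 : |(1 : ℝ)| / p * ((p : ℝ) * p) ^ (1 / 20 : ℝ) ≤ |(1 : ℝ)| / p * (p / 4) := by gcongr
    rw [e1] at h11
    rw [e2] at h12
    linarith

theorem contr (A : ℕ) {p c1 c2 K : ℝ} (hp : 2 ≤ p) (h1 : 0 ≤ c1) (h2 : 0 ≤ c2)
    (hc : c1 * p ^ (1 / 20 : ℝ) + c2 * (p * p) ^ (1 / 20 : ℝ) ≤ 9 / 10) (hK : 0 ≤ K) (f : ℝ → ℝ)
    (h0 : ∀ x, 0 ≤ x → x < 1 → f x ≤ 10 * K * om A x)
    (hr : ∀ x, 1 ≤ x → f x ≤ K * om A x + c1 * f (x / p) + c2 * f (x / (p * p))) :
    ∀ x, 0 ≤ x → f x ≤ 10 * K * om A x := by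
  have key : ∀ n : ℕ, ∀ x : ℝ, 0 ≤ x → x < 2 ^ n → f x ≤ 10 * K * om A x := by
    intro n
    induction n with
    | zero =>
      intro x hx hx1
      rw [pow_zero] at hx1
      exact h0 x hx hx1
    | succ n ih =>
      intro x hx hxn
      rcases lt_or_ge x 1 with hx1 | hx1
      · exact h0 x hx hx1
      have hom := om_pos (A := A) hx
      have h2n : (0:ℝ) < 2 ^ n := by positivity
      rw [pow_succ] at hxn
      have hpp : 2 ≤ p * p := by nlinarith
      have e1 : x / p < 2 ^ n := by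
        rw [div_lt_iff₀ (by linarith)]
        nlinarith
      have e2 : x / (p * p) < 2 ^ n := by
        rw [div_lt_iff₀ (by linarith)]
        nlinarith
      have h3 := ih (x / p) (by positivity) e1
      have h4 := ih (x / (p * p)) (by positivity) e2
      have h5 := om_ratio (A := A) hx (show 1 ≤ p by linarith)
      have h6 := om_ratio (A := A) hx (show 1 ≤ p * p by linarith)
      have h7 := hr x hx1
      calc f x ≤ K * om A x + c1 * (10 * K * om A (x / p)) +
            c2 * (10 * K * om A (x / (p * p))) := by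
            have := mul_le_mul_of_nonneg_left h3 h1
            have := mul_le_mul_of_nonneg_left h4 h2
            linarith
        _ ≤ K * om A x + c1 * (10 * K * (p ^ (1 / 20 : ℝ) * om A x)) +
            c2 * (10 * K * ((p * p) ^ (1 / 20 : ℝ) * om A x)) := by gcongr
        _ = K * om A x + 10 * K * om A x *
            (c1 * p ^ (1 / 20 : ℝ) + c2 * (p * p) ^ (1 / 20 : ℝ)) := by ring
        _ ≤ K * om A x + 10 * K * om A x * (9 / 10) := by gcongr
        _ = 10 * K * om A x := by ring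
  intro x hx
  obtain ⟨n, hn⟩ := pow_unbounded_of_one_lt x (by norm_num : (1:ℝ) < 2)
  exact key n x hx hn

theorem cS_empty_of_lt (S : Finset ℕ) {x : ℝ} (hx : x < 1) : cS S x = ∅ := by
  unfold cS
  rw [bl_empty hx, filter_empty]

theorem FS_zero (S : Finset ℕ) (l : ℤ) {x : ℝ} (hx : x < 1) : FS S l x = 0 := by
  unfold FS
  rw [cS_empty_of_lt S hx, sum_empty]

theorem GS_zero (S : Finset ℕ) (l : ℤ) {x : ℝ} (hx : x < 1) : GS S l x = 0 := by
  unfold GS
  rw [cS_empty_of_lt S hx, sum_empty, mul_zero]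

theorem cS_nil (x : ℝ) : cS ∅ x = bl x := by
  ext b
  rw [mem_cS, mem_bl]
  simp

/-- bound for the last term of the recursion -/
theorem last_le {p : ℕ} (l : ℤ) (z : ℝ) : |ch p * ka p l * z| ≤ |ch p| / p * |z| := by
  obtain ⟨h1, h2⟩ := ka_bd p l
  rw [abs_mul, abs_mul, abs_of_nonneg h1]
  calc |ch p| * ka p l * |z| ≤ |ch p| * (1 / p) * |z| := by gcongr
    _ = _ := by ring

theorem avgF (hm : S_MUB) (h1 : S_MT1) (A : ℕ) (S : Finset ℕ) (hS : ∀ r ∈ S, r.Prime) :
    ∃ K : ℝ, 0 < K ∧ ∀ x : ℝ, 0 ≤ x → ∀ L : ℝ, 0 ≤ L →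
      ∑ l ∈ Icc (1 : ℤ) ⌊L⌋, |FS S l x| ≤ K * om A x * L := by
  induction S using Finset.induction_on with
  | empty =>
    obtain ⟨Φ, hΦ, h⟩ := FF_avg h1 A
    refine ⟨Φ, hΦ, ?_⟩
    intro x hx L hL
    have h2 : ∀ l, FS ∅ l x = FF l x := by
      intro l
      unfold FS FF
      rw [cS_nil]
    simp only [h2]
    exact h x hx L hL
  | insert p S hpS ih =>
    have hS' : ∀ r ∈ S, r.Prime := fun r hr => hS r (mem_insert_of_mem hr)
    obtain ⟨K, hK, h⟩ := ih hS'
    have hp := hS p (mem_insert_self _ _)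
    have hp2 : (2 : ℝ) ≤ p := by exact_mod_cast hp.two_le
    obtain ⟨hc1, hc2⟩ := cc hp
    refine ⟨10 * K, by positivity, ?_⟩
    intro x hx L hL
    have h2 := contr A hp2 hc1 (by positivity : 0 ≤ |ch p| / (p : ℝ)) hc2
      (by positivity : 0 ≤ K * L)
      (fun x => ∑ l ∈ Icc (1 : ℤ) ⌊L⌋, |FS (insert p S) l x|) ?_ ?_ x hx
    · calc _ ≤ 10 * (K * L) * om A x := h2
        _ = _ := by ring
    · intro x hx hx1
      have hom := om_pos (A := A) hx
      have h3 : ∑ l ∈ Icc (1 : ℤ) ⌊L⌋, |FS (insert p S) l x| = 0 := by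
        refine sum_eq_zero fun l _ => ?_
        rw [FS_zero _ l hx1, abs_zero]
      simp only [h3]
      positivity
    · intro x hx1
      have hx0 : 0 ≤ x := by linarith
      have h3 : ∀ l ∈ Icc (1 : ℤ) ⌊L⌋, |FS (insert p S) l x| ≤ |FS S l x| +
          (1 + ch p) / p * |FS (insert p S) l (x / p)| +
          |ch p| / p * |FS (insert p S) l (x / (p * p))| := by
        intro l _
        have h4 := recF hm hp hS' hpS l x
        have h5 : FS (insert p S) l x = FS S l x +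
            (1 + ch p) / p * FS (insert p S) l (x / p) -
            ch p * ka p l * FS (insert p S) l (x / (p * p)) := by linarith
        rw [h5]
        refine (abs_sub _ _).trans ?_
        have h6 := last_le (p := p) l (FS (insert p S) l (x / (p * p)))
        have h7 := abs_add_le (FS S l x) ((1 + ch p) / p * FS (insert p S) l (x / p))
        rw [abs_mul ((1 + ch p) / p), abs_of_nonneg hc1] at h7
        linarith
      have h4 := sum_le_sum h3
      rw [sum_add_distrib, sum_add_distrib, ← mul_sum, ← mul_sum] at h4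
      have h5 := h x hx0 L hL
      have e1 : K * L * om A x = K * om A x * L := by ring
      simp only [e1]
      linarith

/-! ### the sums with logarithms -/

theorem to_om (A : ℕ) {C c : ℝ} (hC : 0 ≤ C) (hc : 0 ≤ c) : ∃ Φ : ℝ, 0 < Φ ∧
    ∀ (h : ℝ → ℝ) (L : ℝ), 0 ≤ L → (∀ x, 0 ≤ x → x < 3 → h x ≤ c * L) →
      (∀ x, 3 ≤ x → h x ≤ C * L / (Real.log x) ^ A) → ∀ x, 0 ≤ x → h x ≤ Φ * om A x * L := by
  obtain ⟨B, hB⟩ : ∃ B, B = Real.exp (20 * ((A : ℝ) + 1)) := ⟨_, rfl⟩
  have hB0 : 0 < B := by rw [hB]; exact Real.exp_pos _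
  obtain ⟨T, hT⟩ : ∃ T, T = Real.log (1 + B) := ⟨_, rfl⟩
  have hT0 : 0 < T := by rw [hT]; exact Real.log_pos (by linarith)
  have hlog3B : 0 ≤ Real.log (3 + B) := Real.log_nonneg (by linarith)
  refine ⟨C * (1 + T) ^ A + c * (Real.log (3 + B)) ^ A + 1, by positivity, ?_⟩
  intro h L hL hlt hge x hx
  have hom := om_pos (A := A) hx
  rcases lt_or_ge x 3 with hx3 | hx3
  · have h3 := hlt x hx hx3
    have h4 : 1 ≤ (Real.log (3 + B)) ^ A * om A x := by
      unfold om
      rw [mul_one_div, ← hB]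
      have hl := logB (A := A) hx
      rw [← hB] at hl
      have hA : (0:ℝ) ≤ A := by positivity
      rw [one_le_div (by have : 0 < Real.log (x + B) := by linarith
                         positivity)]
      exact pow_le_pow_left₀ (by linarith) (Real.log_le_log (by positivity) (by linarith)) A
    calc h x ≤ c * L := h3
      _ ≤ (c * ((Real.log (3 + B)) ^ A * om A x)) * L := by nlinarith [mul_nonneg hL hc]
      _ ≤ _ := by
          have : 0 ≤ (C * (1 + T) ^ A + 1) * om A x * L := by positivity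
          nlinarith
  · have h2 := hge x hx3
    have hlx : 1 ≤ Real.log x := by
      rw [Real.le_log_iff_exp_le (by linarith)]
      have := Real.exp_one_lt_d9
      linarith
    have h3 : 1 / (Real.log x) ^ A ≤ (1 + T) ^ A * om A x := by
      unfold om
      rw [mul_one_div, ← hB, div_le_div_iff₀ (by positivity), one_mul, ← mul_pow]
      · apply pow_le_pow_left₀ (Real.log_nonneg (by linarith))
        have h4 : Real.log (x + B) ≤ Real.log x + T := by
          rw [hT, ← Real.log_mul (by linarith) (by linarith)]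
          apply Real.log_le_log (by linarith)
          nlinarith
        nlinarith
      · have hl := logB (A := A) hx
        rw [← hB] at hl
        have hA : (0:ℝ) ≤ A := by positivity
        have : 0 < Real.log (x + B) := by linarith
        positivity
    calc _ ≤ C * L / (Real.log x) ^ A := h2
      _ = C * L * (1 / (Real.log x) ^ A) := by ring
      _ ≤ C * L * ((1 + T) ^ A * om A x) := mul_le_mul_of_nonneg_left h3 (by positivity)
      _ ≤ _ := by
          have : 0 ≤ (c * (Real.log (3 + B)) ^ A + 1) * om A x * L := by positivity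
          nlinarith

theorem GS_triv (l : ℤ) {x : ℝ} (hx : x ≤ 3) :
    |GS ∅ l x| ≤ ((bl 3).card : ℝ) * Real.log 3 := by
  unfold GS
  rw [cS_nil, abs_mul, abs_of_pos (by norm_num : (0:ℝ) < 1 / 4)]
  have hl3 : 0 ≤ Real.log 3 := Real.log_nonneg (by norm_num)
  have h1 : |∑ b ∈ bl x, mu b * (kap l b / nz b) * Real.log (nz b)| ≤
      ((bl 3).card : ℝ) * Real.log 3 := by
    refine (abs_sum_le_sum_abs _ _).trans ?_
    have h3 : ∑ b ∈ bl x, |mu b * (kap l b / nz b) * Real.log (nz b)| ≤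
        ∑ _b ∈ bl x, Real.log 3 := by
      refine sum_le_sum fun b hb => ?_
      rw [mem_bl] at hb
      have h4 := nz_pos hb.1
      have h5 : 0 ≤ Real.log (nz b) := Real.log_nonneg h4
      have h6 : Real.log (nz b) ≤ Real.log 3 := Real.log_le_log (by linarith) (by linarith)
      rw [abs_mul, abs_of_nonneg h5]
      calc |mu b * (kap l b / nz b)| * Real.log (nz b) ≤ 1 * Real.log 3 :=
            mul_le_mul (term_le l hb.1) h6 h5 zero_le_one
        _ = _ := one_mul _
    refine h3.trans ?_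
    rw [sum_const, nsmul_eq_mul]
    refine mul_le_mul_of_nonneg_right ?_ hl3
    exact_mod_cast card_le_card (bl_mono hx)
  have h2 : 0 ≤ ((bl 3).card : ℝ) * Real.log 3 := by positivity
  linarith

theorem avgG0 (h1 : S_MT1) (A : ℕ) : ∃ K : ℝ, 0 < K ∧ ∀ x : ℝ, 0 ≤ x → ∀ L : ℝ, 0 ≤ L →
      ∑ l ∈ Icc (1 : ℤ) ⌊L⌋, |GS ∅ l x + SS l| ≤ K * om A x * L := by
  obtain ⟨C, hC0, hC⟩ := h1 A
  obtain ⟨c, hc⟩ : ∃ c : ℝ, c = ((bl 3).card : ℝ) * Real.log 3 := ⟨_, rfl⟩
  have hl3 : 0 ≤ Real.log 3 := Real.log_nonneg (by norm_num)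
  have hc0 : 0 ≤ c := by rw [hc]; positivity
  obtain ⟨Φ, hΦ, h2⟩ := to_om A hC0.le (by positivity : 0 ≤ C + 2 * c)
  refine ⟨Φ, hΦ, ?_⟩
  intro x hx L hL
  have hom := om_pos (A := A) hx
  rcases lt_or_ge L 1 with hL1 | hL1
  · have : Icc (1 : ℤ) ⌊L⌋ = ∅ := by
      apply Icc_eq_empty
      rw [not_le]
      exact Int.floor_lt.2 (by push_cast; exact hL1)
    rw [this, sum_empty]
    positivity
  have hMT : ∀ x : ℝ, 3 ≤ x → ∑ l ∈ Icc (1 : ℤ) ⌊L⌋, |GS ∅ l x + SS l| ≤
      C * L / (Real.log x) ^ A := by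
    intro x hx3
    have h3 := (hC L x hL1 hx3).2
    unfold GS
    rw [cS_nil]
    exact h3
  have hcard := card_Icc_le hL
  have hSS : ∑ l ∈ Icc (1 : ℤ) ⌊L⌋, |SS l| ≤ (C + c) * L := by
    have h3 := hMT 3 le_rfl
    have hl : 1 ≤ Real.log 3 := by
      rw [Real.le_log_iff_exp_le (by norm_num)]
      have := Real.exp_one_lt_d9
      linarith
    have h4 : C * L / (Real.log 3) ^ A ≤ C * L :=
      div_le_self (by positivity) (one_le_pow₀ hl)
    have h5 : ∑ l ∈ Icc (1 : ℤ) ⌊L⌋, |SS l| ≤ ∑ l ∈ Icc (1 : ℤ) ⌊L⌋, (|GS ∅ l 3 + SS l| + c) := by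
      refine sum_le_sum fun l _ => ?_
      have h6 := GS_triv l (le_refl (3 : ℝ))
      rw [← hc] at h6
      have h7 := abs_sub (GS ∅ l 3 + SS l) (GS ∅ l 3)
      rw [add_sub_cancel_left] at h7
      linarith
    rw [sum_add_distrib, sum_const, nsmul_eq_mul] at h5
    have h6 := mul_le_mul_of_nonneg_right hcard hc0
    linarith
  refine h2 (fun x => ∑ l ∈ Icc (1 : ℤ) ⌊L⌋, |GS ∅ l x + SS l|) L hL ?_ hMT x hx
  intro x hx hx3
  have h5 : ∑ l ∈ Icc (1 : ℤ) ⌊L⌋, |GS ∅ l x + SS l| ≤ ∑ l ∈ Icc (1 : ℤ) ⌊L⌋, (c + |SS l|) := by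
    refine sum_le_sum fun l _ => ?_
    have h6 := GS_triv l hx3.le
    rw [← hc] at h6
    have h7 := abs_add_le (GS ∅ l x) (SS l)
    linarith
  rw [sum_add_distrib, sum_const, nsmul_eq_mul] at h5
  have h6 := mul_le_mul_of_nonneg_right hcard hc0
  show ∑ l ∈ Icc (1 : ℤ) ⌊L⌋, |GS ∅ l x + SS l| ≤ (C + 2 * c) * L
  linarith

theorem avgG (hm : S_MUB) (h1 : S_MT1) (A : ℕ) (S : Finset ℕ) (hS : ∀ r ∈ S, r.Prime) :
    ∃ K : ℝ, 0 < K ∧ ∀ x : ℝ, 0 ≤ x → ∀ L : ℝ, 0 ≤ L →
      ∑ l ∈ Icc (1 : ℤ) ⌊L⌋, |GS S l x + gam S l * SS l| ≤ K * om A x * L := by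
  induction S using Finset.induction_on with
  | empty =>
    obtain ⟨K, hK, h⟩ := avgG0 h1 A
    refine ⟨K, hK, ?_⟩
    intro x hx L hL
    have h2 : ∀ l, gam ∅ l * SS l = SS l := by
      intro l
      unfold gam
      rw [prod_empty, one_mul]
    simp only [h2]
    exact h x hx L hL
  | insert p S hpS ih =>
    have hS' : ∀ r ∈ S, r.Prime := fun r hr => hS r (mem_insert_of_mem hr)
    obtain ⟨K, hK, h⟩ := ih hS'
    obtain ⟨KF, hKF, hF⟩ := avgF hm h1 A (insert p S) hS
    have hp := hS p (mem_insert_self _ _)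
    have hp2 : (2 : ℝ) ≤ p := by exact_mod_cast hp.two_le
    have hpp : (2 : ℝ) ≤ p * p := by nlinarith
    obtain ⟨hc1, hc2⟩ := cc hp
    have hlp : 0 ≤ Real.log p := Real.log_nonneg (by linarith)
    have hlpp : 0 ≤ Real.log (p * p) := Real.log_nonneg (by linarith)
    have hll : Real.log p ≤ Real.log (p * p) :=
      Real.log_le_log (by linarith) (by nlinarith)
    obtain ⟨K1, hK1⟩ : ∃ K1, K1 = K + 1 / 4 * Real.log (p * p) * KF := ⟨_, rfl⟩
    have hK10 : 0 < K1 := by
      rw [hK1]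
      positivity
    have hKK : K ≤ K1 := by
      rw [hK1]
      have : 0 ≤ 1 / 4 * Real.log (p * p) * KF := by positivity
      linarith
    refine ⟨10 * K1, by positivity, ?_⟩
    intro x hx L hL
    have h2 := contr A hp2 hc1 (by positivity : 0 ≤ |ch p| / (p : ℝ)) hc2
      (by positivity : 0 ≤ K1 * L)
      (fun x => ∑ l ∈ Icc (1 : ℤ) ⌊L⌋, |GS (insert p S) l x + gam (insert p S) l * SS l|) ?_ ?_ x hx
    · calc _ ≤ 10 * (K1 * L) * om A x := h2
        _ = _ := by ring
    · intro x hx hx1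
      have hom := om_pos (A := A) hx
      have h3 : ∀ l ∈ Icc (1 : ℤ) ⌊L⌋, |GS (insert p S) l x + gam (insert p S) l * SS l| ≤
          2 * |GS S l x + gam S l * SS l| := by
        intro l _
        rw [GS_zero _ l hx1, GS_zero _ l hx1, zero_add, zero_add, ← gam_insert hp hpS l, abs_mul,
          abs_mul, abs_mul]
        have h4 := del_ge hp l
        have h5 : |del p l| = del p l := abs_of_nonneg (by linarith)
        rw [h5]
        have h6 : 0 ≤ |gam (insert p S) l| * |SS l| := by positivity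
        nlinarith
      have h4 := sum_le_sum h3
      rw [← mul_sum] at h4
      have h5 := h x hx L hL
      have h6 : K * om A x * L ≤ K1 * om A x * L := by gcongr
      have h7 : 0 ≤ K1 * om A x * L := by positivity
      calc _ ≤ 2 * ∑ l ∈ Icc (1 : ℤ) ⌊L⌋, |GS S l x + gam S l * SS l| := h4
        _ ≤ 10 * (K1 * om A x * L) := by linarith
        _ = _ := by ring
    · intro x hx1
      have hx0 : 0 ≤ x := by linarith
      have hom := om_pos (A := A) hx0
      have h3 : ∀ l ∈ Icc (1 : ℤ) ⌊L⌋, |GS (insert p S) l x + gam (insert p S) l * SS l| ≤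
          |GS S l x + gam S l * SS l| +
          (1 + ch p) / p * |GS (insert p S) l (x / p) + gam (insert p S) l * SS l| +
          |ch p| / p * |GS (insert p S) l (x / (p * p)) + gam (insert p S) l * SS l| +
          (1 + ch p) / p * (1 / 4 * Real.log (p * p)) * |FS (insert p S) l (x / p)| +
          |ch p| / p * (1 / 4 * Real.log (p * p)) * |FS (insert p S) l (x / (p * p))| := by
        intro l _
        rw [recH hm hp hS' hpS l x (SS l)]
        generalize GS S l x + gam S l * SS l = a0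
        generalize GS (insert p S) l (x / p) + gam (insert p S) l * SS l = a1
        generalize GS (insert p S) l (x / (p * p)) + gam (insert p S) l * SS l = a2
        generalize FS (insert p S) l (x / p) = b1
        generalize FS (insert p S) l (x / (p * p)) = b2
        have e1 := abs_sub (a0 + (1 + ch p) / p * a1 - ch p * ka p l * a2 +
          (1 + ch p) / p * (1 / 4 * Real.log p * b1))
          (ch p * ka p l * (1 / 4 * Real.log (p * p) * b2))
        have e2 := abs_add_le (a0 + (1 + ch p) / p * a1 - ch p * ka p l * a2)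
          ((1 + ch p) / p * (1 / 4 * Real.log p * b1))
        have e3 := abs_sub (a0 + (1 + ch p) / p * a1) (ch p * ka p l * a2)
        have e4 := abs_add_le a0 ((1 + ch p) / p * a1)
        have e5 := last_le (p := p) l a2
        have e6 := last_le (p := p) l (1 / 4 * Real.log (p * p) * b2)
        have e7 : |1 / 4 * Real.log (p * p) * b2| = 1 / 4 * Real.log (p * p) * |b2| := by
          rw [abs_mul, abs_of_nonneg (by positivity)]
        have e8 : |(1 + ch p) / p * a1| = (1 + ch p) / p * |a1| := by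
          rw [abs_mul, abs_of_nonneg hc1]
        have e9 : |(1 + ch p) / p * (1 / 4 * Real.log p * b1)| ≤
            (1 + ch p) / p * (1 / 4 * Real.log (p * p)) * |b1| := by
          have e11 : (1 + ch p) / p * (1 / 4 * Real.log p * |b1|) ≤
              (1 + ch p) / p * (1 / 4 * Real.log (p * p) * |b1|) :=
            mul_le_mul_of_nonneg_left (mul_le_mul_of_nonneg_right (by linarith) (abs_nonneg _)) hc1
          rw [abs_mul, abs_of_nonneg hc1, abs_mul, abs_of_nonneg (by positivity :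
            0 ≤ 1 / 4 * Real.log (p : ℝ))]
          calc _ ≤ _ := e11
            _ = _ := by ring
        rw [e7] at e6
        have e10 : |ch p| / p * (1 / 4 * Real.log (p * p) * |b2|) =
            |ch p| / p * (1 / 4 * Real.log (p * p)) * |b2| := by ring
        rw [e10] at e6
        linarith
      have h4 := sum_le_sum h3
      rw [sum_add_distrib, sum_add_distrib, sum_add_distrib, sum_add_distrib, ← mul_sum,
        ← mul_sum, ← mul_sum, ← mul_sum] at h4
      have h5 := h x hx0 L hL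
      have h6 := hF (x / p) (by positivity) L hL
      have h7 := hF (x / (p * p)) (by positivity) L hL
      have h8 := om_ratio (A := A) hx0 (show (1 : ℝ) ≤ p by linarith)
      have h9 := om_ratio (A := A) hx0 (show (1 : ℝ) ≤ (p : ℝ) * p by linarith)
      have h10 : (1 + ch p) / p * (1 / 4 * Real.log (p * p)) *
          ∑ l ∈ Icc (1 : ℤ) ⌊L⌋, |FS (insert p S) l (x / p)| ≤
          (1 / 4 * Real.log (p * p)) * KF * om A x * L *
            ((1 + ch p) / p * (p : ℝ) ^ (1 / 20 : ℝ)) := by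
        calc (1 + ch p) / p * (1 / 4 * Real.log (p * p)) *
              ∑ l ∈ Icc (1 : ℤ) ⌊L⌋, |FS (insert p S) l (x / p)|
            ≤ (1 + ch p) / p * (1 / 4 * Real.log (p * p)) * (KF * om A (x / p) * L) := by
              gcongr
          _ ≤ (1 + ch p) / p * (1 / 4 * Real.log (p * p)) *
              (KF * ((p : ℝ) ^ (1 / 20 : ℝ) * om A x) * L) := by gcongr
          _ = _ := by ring
      have h11 : |ch p| / p * (1 / 4 * Real.log (p * p)) *
          ∑ l ∈ Icc (1 : ℤ) ⌊L⌋, |FS (insert p S) l (x / (p * p))| ≤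
          (1 / 4 * Real.log (p * p)) * KF * om A x * L *
            (|ch p| / p * ((p : ℝ) * p) ^ (1 / 20 : ℝ)) := by
        calc |ch p| / p * (1 / 4 * Real.log (p * p)) *
              ∑ l ∈ Icc (1 : ℤ) ⌊L⌋, |FS (insert p S) l (x / (p * p))|
            ≤ |ch p| / p * (1 / 4 * Real.log (p * p)) * (KF * om A (x / (p * p)) * L) := by
              gcongr
          _ ≤ |ch p| / p * (1 / 4 * Real.log (p * p)) *
              (KF * (((p : ℝ) * p) ^ (1 / 20 : ℝ) * om A x) * L) := by gcongr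
          _ = _ := by ring
      have h12 : 0 ≤ (1 / 4 * Real.log (p * p)) * KF * om A x * L := by positivity
      have h13 := mul_le_mul_of_nonneg_left hc2 h12
      have e1 : K1 * L * om A x = K * om A x * L +
          (1 / 4 * Real.log (p * p)) * KF * om A x * L := by
        rw [hK1]
        ring
      simp only [e1]
      linarith

/-! ### the theorem -/

theorem cop_iff {q0 : ℕ} (hq : q0 ≠ 0) (b : ZI) :
    IsCoprime b ((q0 : ℕ) : ZI) ↔ ∀ r ∈ q0.primeFactors, IsCoprime b ((r : ℕ) : ZI) := by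
  constructor
  · intro h r hr
    refine h.of_isCoprime_of_dvd_right ?_
    obtain ⟨c, hc⟩ := Nat.dvd_of_mem_primeFactors hr
    exact ⟨((c : ℕ) : ZI), by rw [hc]; push_cast; rfl⟩
  · intro h
    have h1 : ((q0 : ℕ) : ZI) = ∏ r ∈ q0.primeFactors, ((r : ℕ) : ZI) ^ q0.factorization r := by
      conv_lhs => rw [← Nat.prod_factorization_pow_eq_self hq]
      rw [Finsupp.prod, Nat.support_factorization]
      push_cast
      rfl
    rw [h1]
    exact IsCoprime.prod_right fun r hr => (h r hr).pow_right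

theorem gq_eq {q0 : ℕ} (hq : q0 ≠ 0) (l : ℤ) : gq q0 l = gam q0.primeFactors l := by
  have h1 : (Nat.totient q0 : ℚ) = q0 * ∏ p ∈ q0.primeFactors, (1 - (p : ℚ)⁻¹) :=
    Nat.totient_eq_mul_prod_factors q0
  have h2 : (Nat.totient q0 : ℝ) = q0 * ∏ p ∈ q0.primeFactors, (1 - (p : ℝ)⁻¹) := by
    have := congrArg (fun x : ℚ => (x : ℝ)) h1
    push_cast at this
    exact this
  have hq0 : (q0 : ℝ) ≠ 0 := by exact_mod_cast hq
  have h3 : ∏ p ∈ q0.primeFactors, del p l = (∏ p ∈ q0.primeFactors, (1 - (p : ℝ)⁻¹)) *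
      ∏ p ∈ q0.primeFactors.filter (fun p : ℕ => p ≠ 2 ∧ ¬ (p : ℤ) ∣ l),
        (1 - ((ZMod.χ₄ (p : ZMod 4) : ℤ) : ℝ) / ((p : ℝ) - 1)) := by
    rw [prod_filter, ← prod_mul_distrib]
    refine prod_congr rfl fun p hp => ?_
    have hpp := Nat.prime_of_mem_primeFactors hp
    have hp2 : (2 : ℝ) ≤ p := by exact_mod_cast hpp.two_le
    have hp0 : (p : ℝ) ≠ 0 := by linarith
    have hp1 : (p : ℝ) - 1 ≠ 0 := by linarith
    change del p l = (1 - (p : ℝ)⁻¹) * if p ≠ 2 ∧ ¬ (p : ℤ) ∣ l then 1 - ch p / ((p : ℝ) - 1) else 1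
    unfold del
    by_cases h4 : p = 2
    · have h5 : ch p = 0 := by
        rcases ch_cases hpp with ⟨h6, h7⟩ | ⟨h6, h7⟩ | ⟨h6, h7⟩
        · exact h7
        · omega
        · omega
      have h6 : ¬ (p ≠ 2 ∧ ¬ (p : ℤ) ∣ l) := fun h => h.1 h4
      rw [if_neg h6, h5]
      ring
    · by_cases h5 : (p : ℤ) ∣ l
      · have h6 : ¬ (p ≠ 2 ∧ ¬ (p : ℤ) ∣ l) := fun h => h.2 h5
        have h7 : ka p l = 1 / p := by
          unfold ka
          rw [if_pos h5]
        rw [if_neg h6, h7]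
        ring
      · have h6 : p ≠ 2 ∧ ¬ (p : ℤ) ∣ l := ⟨h4, h5⟩
        have h7 : ka p l = 0 := by
          unfold ka
          rw [if_neg h5]
        rw [if_pos h6, h7]
        field_simp
        ring
  have h4 : ∏ p ∈ q0.primeFactors, del p l ≠ 0 := by
    rw [prod_ne_zero_iff]
    intro p hp
    have := del_ge (Nat.prime_of_mem_primeFactors hp) l
    linarith
  unfold gam gq
  rw [prod_inv_distrib, h3, h2, mul_inv]
  rw [h3] at h4
  generalize (∏ p ∈ q0.primeFactors, (1 - (p : ℝ)⁻¹)) = a at h4 ⊢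
  generalize (∏ p ∈ q0.primeFactors.filter (fun p : ℕ => p ≠ 2 ∧ ¬ (p : ℤ) ∣ l),
    (1 - ((ZMod.χ₄ (p : ZMod 4) : ℤ) : ℝ) / ((p : ℝ) - 1))) = b at h4 ⊢
  have ha : a ≠ 0 := left_ne_zero_of_mul h4
  have hb : b ≠ 0 := right_ne_zero_of_mul h4
  field_simp

/-- **GN/XMT1** -/
theorem mt1x (hm : S_MUB) (h : S_MT1) : S_MT1X := by
  classical
  intro A q0 hq0
  have hq : q0 ≠ 0 := by omega
  have hS : ∀ r ∈ q0.primeFactors, r.Prime := fun r hr => Nat.prime_of_mem_primeFactors hr
  obtain ⟨K1, hK1, h1⟩ := avgF hm h A q0.primeFactors hS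
  obtain ⟨K2, hK2, h2⟩ := avgG hm h A q0.primeFactors hS
  refine ⟨K1 + K2, by positivity, ?_⟩
  intro L y hL hy
  have hy0 : 0 ≤ y := by linarith
  have hL0 : 0 ≤ L := by linarith
  have hom0 := om_pos (A := A) hy0
  have hly : 1 ≤ Real.log y := by
    rw [Real.le_log_iff_exp_le (by linarith)]
    have := Real.exp_one_lt_d9
    linarith
  have hom : om A y ≤ 1 / (Real.log y) ^ A := by
    unfold om
    have h3 : Real.log y ≤ Real.log (y + Real.exp (20 * (A + 1))) :=
      Real.log_le_log (by linarith) (by linarith [Real.exp_pos (20 * ((A : ℝ) + 1))])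
    gcongr
  have hfin : ∀ K : ℝ, 0 < K → K ≤ K1 + K2 → K * om A y * L ≤ (K1 + K2) * L / (Real.log y) ^ A := by
    intro K hK hKK
    calc K * om A y * L ≤ (K1 + K2) * (1 / (Real.log y) ^ A) * L := by gcongr
      _ = _ := by ring
  have hset : (bl y).filter (fun b => IsCoprime b ((q0 : ℕ) : ZI)) = cS q0.primeFactors y := by
    ext b
    rw [mem_filter, mem_bl, mem_cS, cop_iff hq]
  rw [hset]
  constructor
  · exact (h1 y hy0 L hL0).trans (hfin K1 hK1 (by linarith))
  · have h3 := (h2 y hy0 L hL0).trans (hfin K2 hK2 (by linarith))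
    simp only [gq_eq hq]
    exact h3

end Pool.Agent.N650.GN
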