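import Pool.Agent.N782.GN.StmX
import Pool.Agent.N521.GN.Mt2d
import Pool.Agent.N157.GN.Mub

/-!
# GN/XMT1, part 1: the local sums over the divisors of a rational prime (helper650)

Uses the decomposition of helper521 (`Pool.Agent.N521.GN.Mt2a` to `Mt2d`).
-/

set_option autoImplicit false

namespace Pool.Agent.N650.GN

open Finset
open Pool.Agent.N782.GN hiding om
open Pool.Agent.N521.GN

/-- the character modulo `4` -/
noncomputable def ch (p : ℕ) : ℝ := ((ZMod.χ₄ (p : ZMod 4) : ℤ) : ℝ)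

theorem mem_E1 {p : ℕ} (hp : p.Prime) (g : ZI) : g ∈ E1 p ↔ nn g = p := by
  classical
  unfold E1
  rw [mem_filter, mem_Dp hp, and_iff_right_iff_imp]
  intro h
  have h1 : g * star g = ((p : ℕ) : ZI) := by rw [nn_star_eq, h]
  exact ⟨star g, h1.symm⟩

theorem mem_E2 {p : ℕ} (hp : p.Prime) (g : ZI) : g ∈ E2 p ↔ ∃ u ∈ UU, u * ((p : ℕ) : ZI) = g := by
  classical
  unfold E2
  rw [mem_filter, mem_Dp hp]
  constructor
  · rintro ⟨⟨c, hc⟩, hn⟩
    have h1 : nn c = 1 := by
      have h2 := nn_P p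
      rw [hc, nn_mul, hn] at h2
      have h3 : 0 < p * p := Nat.mul_pos hp.pos hp.pos
      have h4 : p * p * nn c = p * p * 1 := by rw [h2, mul_one]
      exact Nat.eq_of_mul_eq_mul_left h3 h4
    have hcu : IsUnit c := (isUnit_iff c).2 h1
    refine ⟨star c, (mem_UU _).2 (unit_star hcu), ?_⟩
    have h5 := unit_mul_star hcu
    rw [hc]
    calc star c * (g * c) = g * (c * star c) := by ring
      _ = g := by rw [h5, mul_one]
  · rintro ⟨u, hu, rfl⟩
    rw [mem_UU] at hu
    refine ⟨(hu.mul_left_dvd).2 dvd_rfl, ?_⟩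
    rw [nn_mul, (isUnit_iff u).1 hu, one_mul, nn_P]

theorem prime_of_nn {p : ℕ} (hp : p.Prime) {g : ZI} (h : nn g = p) : Prime g := by
  refine Irreducible.prime ⟨?_, ?_⟩
  · intro h1
    rw [isUnit_iff, h] at h1
    exact hp.one_lt.ne' h1
  · intro a b hab
    have h1 : nn a * nn b = p := by rw [← nn_mul, ← hab, h]
    rw [isUnit_iff, isUnit_iff]
    rcases (Nat.dvd_prime hp).1 ⟨nn b, h1.symm⟩ with h2 | h2
    · exact Or.inl h2
    · right
      rw [h2] at h1
      exact Nat.eq_of_mul_eq_mul_left hp.pos (by rw [h1, mul_one])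

/-! ### the number of the elements of norm `p` -/

theorem card_E1_2 : (E1 2).card = 4 := by
  classical
  have hset : E1 2 = ({⟨1, 1⟩, ⟨1, -1⟩, ⟨-1, 1⟩, ⟨-1, -1⟩} : Finset ZI) := by
    ext g
    rw [mem_E1 Nat.prime_two]
    constructor
    · intro h
      have h1 : Zsqrtd.norm g = 2 := by
        rw [← nn_cast, h]; rfl
      rw [Zsqrtd.norm_def] at h1
      obtain ⟨a, b⟩ := g
      simp only at h1
      have h2 : a * a ≤ 2 := by nlinarith [mul_self_nonneg b]
      have h3 : b * b ≤ 2 := by nlinarith [mul_self_nonneg a]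
      have h4 : -1 ≤ a ∧ a ≤ 1 := by constructor <;> nlinarith
      have h5 : -1 ≤ b ∧ b ≤ 1 := by constructor <;> nlinarith
      have ha : a = -1 ∨ a = 0 ∨ a = 1 := by omega
      have hb : b = -1 ∨ b = 0 ∨ b = 1 := by omega
      rcases ha with rfl | rfl | rfl <;> rcases hb with rfl | rfl | rfl <;>
        first | (exfalso; revert h1; decide) | decide
    · intro h
      simp only [mem_insert, mem_singleton] at h
      rcases h with rfl | rfl | rfl | rfl <;> decide
  rw [hset]
  decide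

theorem norm_xy (g : ZI) : (nn g : ℤ) = g.re * g.re + g.im * g.im := by
  rw [nn_cast, Zsqrtd.norm_def]
  ring

theorem card_E1_3 {p : ℕ} (hp : p.Prime) (h : p % 4 = 3) : (E1 p).card = 0 := by
  rw [card_eq_zero, eq_empty_iff_forall_notMem]
  intro g hg
  rw [mem_E1 hp] at hg
  have h1 := norm_xy g
  rw [hg] at h1
  have h2 : ∀ x : ℤ, x * x % 4 = 0 ∨ x * x % 4 = 1 := by
    intro x
    rcases Int.even_or_odd' x with ⟨k, rfl | rfl⟩
    · left
      have : 2 * k * (2 * k) = 4 * (k * k) := by ring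
      omega
    · right
      have : (2 * k + 1) * (2 * k + 1) = 4 * (k * k + k) + 1 := by ring
      omega
  have h3 := h2 g.re
  have h4 := h2 g.im
  omega

theorem card_E1_1 {p : ℕ} (hp : p.Prime) (h : p % 4 = 1) : (E1 p).card = 8 := by
  classical
  have : Fact p.Prime := ⟨hp⟩
  obtain ⟨a, b, hab⟩ := Nat.Prime.sq_add_sq (p := p) (by omega)
  obtain ⟨g₀, hg₀⟩ : ∃ g₀ : ZI, g₀ = ⟨a, b⟩ := ⟨_, rfl⟩
  have hn : nn g₀ = p := by
    have h1 := norm_xy g₀
    rw [hg₀] at h1
    simp only at h1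
    have h2 : ((a ^ 2 + b ^ 2 : ℕ) : ℤ) = (p : ℤ) := by exact_mod_cast hab
    push_cast at h2
    rw [hg₀]
    have h3 : (nn (⟨a, b⟩ : ZI) : ℤ) = (p : ℤ) := by rw [h1]; linarith
    exact_mod_cast h3
  have hg0 : g₀ ≠ 0 := by
    rintro h1
    rw [h1, show nn (0 : ZI) = 0 by decide] at hn
    exact hp.ne_zero hn.symm
  have hs0 : star g₀ ≠ 0 := by
    intro h1
    apply hg0
    have := congrArg star h1
    rwa [star_star, star_zero] at this
  have hprime := prime_of_nn hp hn
  have hset : E1 p = UU.image (fun u => u * g₀) ∪ UU.image (fun u => u * star g₀) := by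
    ext g
    rw [mem_E1 hp, mem_union, mem_image, mem_image]
    constructor
    · intro hgn
      have h1 : g₀ ∣ g * star g := by
        rw [nn_star_eq, hgn, ← hn, ← nn_star_eq]
        exact dvd_mul_right _ _
      rcases hprime.dvd_or_dvd h1 with ⟨c, hc⟩ | ⟨c, hc⟩
      · left
        have h2 : nn c = 1 := by
          have h3 : nn g = nn g₀ * nn c := by rw [hc, nn_mul]
          rw [hgn, hn] at h3
          exact Nat.eq_of_mul_eq_mul_left hp.pos (by rw [← h3, mul_one])
        exact ⟨c, (mem_UU _).2 ((isUnit_iff c).2 h2), by rw [hc]; ring⟩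
      · right
        have h2 : nn c = 1 := by
          have h3 : nn (star g) = nn g₀ * nn c := by rw [hc, nn_mul]
          rw [nn_star, hgn, hn] at h3
          exact Nat.eq_of_mul_eq_mul_left hp.pos (by rw [← h3, mul_one])
        refine ⟨star c, (mem_UU _).2 (unit_star ((isUnit_iff c).2 h2)), ?_⟩
        have := congrArg star hc
        rw [star_star, star_mul'] at this
        rw [this]
        ring
    · rintro (⟨u, hu, rfl⟩ | ⟨u, hu, rfl⟩)
      · rw [nn_mul, (isUnit_iff u).1 ((mem_UU u).1 hu), one_mul, hn]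
      · rw [nn_mul, (isUnit_iff u).1 ((mem_UU u).1 hu), one_mul, nn_star, hn]
  have hnsq : ∀ c : ℕ, c * c ≠ p := by
    intro c hc
    have h1 : c ∣ p := ⟨c, hc.symm⟩
    rcases (Nat.dvd_prime hp).1 h1 with h2 | h2
    · rw [h2] at hc
      exact hp.one_lt.ne hc
    · rw [h2] at hc
      have := hp.one_lt
      nlinarith
  have hdisj : Disjoint (UU.image (fun u => u * g₀)) (UU.image (fun u => u * star g₀)) := by
    rw [disjoint_left]
    intro z hz hz'
    rw [mem_image] at hz hz'
    obtain ⟨u, hu, rfl⟩ := hz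
    obtain ⟨v, hv, hv'⟩ := hz'
    rw [mem_UU] at hu hv
    have h1 : star v * u * g₀ = star g₀ := by
      calc star v * u * g₀ = star v * (u * g₀) := by ring
        _ = star v * (v * star g₀) := by rw [hv']
        _ = (v * star v) * star g₀ := by ring
        _ = _ := by rw [unit_mul_star hv, one_mul]
    have hw : star v * u ∈ UU := (mem_UU _).2 ((unit_star hv).mul hu)
    generalize star v * u = w at h1 hw
    simp only [UU, mem_insert, mem_singleton] at hw
    have hre := congrArg Zsqrtd.re h1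
    have him := congrArg Zsqrtd.im h1
    rw [hg₀] at hre him
    rcases hw with rfl | rfl | rfl | rfl
    · simp at him
      have hb : b = 0 := by omega
      subst hb
      exact hnsq a (by rw [← hab]; ring)
    · simp at hre
      have ha : a = 0 := by omega
      subst ha
      exact hnsq b (by rw [← hab]; ring)
    · simp at hre
      have hb : b = 0 := by omega
      have ha : a = 0 := by omega
      subst hb
      exact hnsq a (by rw [← hab]; ring)
    · simp at hre
      have hb : a = b := by omega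
      subst hb
      have : p = 2 * (a * a) := by rw [← hab]; ring
      omega
  rw [hset, card_union_of_disjoint hdisj, card_image_of_injOn, card_image_of_injOn, card_UU]
  · intro u _ v _ huv
    exact mul_right_cancel₀ hs0 huv
  · intro u _ v _ huv
    exact mul_right_cancel₀ hg0 huv

theorem card_E1_eq {p : ℕ} (hp : p.Prime) : ((E1 p).card : ℝ) = 4 * (1 + ch p) := by
  rcases hp.eq_two_or_odd with h2 | h2
  · subst h2
    rw [card_E1_2]
    have : ch 2 = 0 := by
      unfold ch
      have : ZMod.χ₄ ((2 : ℕ) : ZMod 4) = 0 := by decide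
      rw [this]
      simp
    rw [this]
    norm_num
  · have h3 : p % 4 = 1 ∨ p % 4 = 3 := by omega
    rcases h3 with h3 | h3
    · rw [card_E1_1 hp h3]
      unfold ch
      rw [ZMod.χ₄_nat_one_mod_four h3]
      norm_num
    · rw [card_E1_3 hp h3]
      unfold ch
      rw [ZMod.χ₄_nat_three_mod_four h3]
      norm_num

theorem ch_cases {p : ℕ} (hp : p.Prime) :
    (p = 2 ∧ ch p = 0) ∨ (3 ≤ p ∧ ch p = -1) ∨ (5 ≤ p ∧ ch p = 1) := by
  rcases hp.eq_two_or_odd with h2 | h2
  · left
    subst h2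
    refine ⟨rfl, ?_⟩
    unfold ch
    have : ZMod.χ₄ ((2 : ℕ) : ZMod 4) = 0 := by decide
    rw [this]
    simp
  · have h3 : p % 4 = 1 ∨ p % 4 = 3 := by omega
    have h4 := hp.two_le
    right
    rcases h3 with h3 | h3
    · right
      refine ⟨by omega, ?_⟩
      unfold ch
      rw [ZMod.χ₄_nat_one_mod_four h3]
      norm_num
    · left
      refine ⟨by omega, ?_⟩
      unfold ch
      rw [ZMod.χ₄_nat_three_mod_four h3]
      norm_num

/-! ### the local sum -/

theorem Dn_eq {p : ℕ} (hp : p.Prime) : Dn p = E1 p ∪ E2 p := by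
  classical
  ext g
  rw [mem_union, mem_Dn]
  unfold E1 E2
  rw [mem_filter, mem_filter]
  constructor
  · intro hg
    have h1 := Dp_nn hp hg.1
    rw [isUnit_iff] at hg
    obtain ⟨i, hi, h2⟩ := (Nat.dvd_prime_pow hp).1 h1
    have h3 : i = 0 ∨ i = 1 ∨ i = 2 := by omega
    rcases h3 with rfl | rfl | rfl
    · exact absurd (by rw [h2, pow_zero]) hg.2
    · left; exact ⟨hg.1, by rw [h2, pow_one]⟩
    · right; exact ⟨hg.1, by rw [h2, sq]⟩
  · have := hp.one_lt
    rintro (⟨h1, h2⟩ | ⟨h1, h2⟩)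
    · refine ⟨h1, ?_⟩
      rw [isUnit_iff, h2]
      omega
    · refine ⟨h1, ?_⟩
      rw [isUnit_iff, h2]
      nlinarith

theorem sum_split {p : ℕ} (hp : p.Prime) (ψ : ZI → ℝ) :
    ∑ g ∈ Dp p, ψ g = ∑ g ∈ UU, ψ g + (∑ g ∈ E1 p, ψ g + ∑ g ∈ E2 p, ψ g) := by
  classical
  have hdisj : Disjoint (E1 p) (E2 p) := by
    rw [disjoint_left]
    intro g h1 h2
    unfold E1 at h1
    unfold E2 at h2
    have h3 := (mem_filter.1 h1).2
    have h4 := (mem_filter.1 h2).2
    rw [h3] at h4
    have := hp.one_lt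
    nlinarith
  rw [sum_Dp hp, Dn_eq hp, sum_union hdisj]

theorem sum_E2 {p : ℕ} (hp : p.Prime) (ψ : ZI → ℝ) :
    ∑ g ∈ E2 p, ψ g = ∑ u ∈ UU, ψ (u * ((p : ℕ) : ZI)) := by
  classical
  have hset : E2 p = UU.image (fun u => u * ((p : ℕ) : ZI)) := by
    ext g
    rw [mem_E2 hp, mem_image]
  rw [hset, sum_image]
  intro u _ v _ huv
  exact mul_right_cancel₀ (P_ne hp) huv

theorem nz_P (p : ℕ) : nz ((p : ℕ) : ZI) = p * p := by
  rw [← nn_real, nn_P]
  push_cast
  rfl

theorem mu_unit {u : ZI} (hu : IsUnit u) : mu u = 1 := Pool.Agent.N157.GN.mu_unit hu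

theorem sum_UU_const {ψ : ZI → ℝ} {c : ℝ} (h : ∀ u ∈ UU, ψ u = c) : ∑ u ∈ UU, ψ u = 4 * c := by
  rw [sum_congr rfl h, sum_const, card_UU]
  simp

theorem mu_P (hm : S_MUB) {p : ℕ} (hp : p.Prime) : mu ((p : ℕ) : ZI) = ch p := by
  classical
  have h1 := hm.2.2.2.1 ((p : ℕ) : ZI) (P_ne hp)
  have hnu : ¬ IsUnit ((p : ℕ) : ZI) := by
    rw [isUnit_iff, nn_P]
    have := hp.one_lt
    nlinarith
  rw [if_neg hnu, nz_P] at h1
  have h2 : ∑ g ∈ Dp p, mu g = 0 := h1
  rw [sum_split hp, sum_E2 hp, sum_UU_const (c := 1) (fun u hu => mu_unit ((mem_UU u).1 hu)),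
    sum_UU_const (c := mu ((p : ℕ) : ZI)) (fun u hu => hm.2.2.1 u _ ((mem_UU u).1 hu))] at h2
  have h3 : ∑ g ∈ E1 p, mu g = -((E1 p).card : ℝ) := by
    rw [sum_congr rfl (g := fun _ => (-1 : ℝ)) (fun g hg =>
      Pool.Agent.N157.GN.mu_prime (prime_of_nn hp ((mem_E1 hp g).1 hg))), sum_const,
      nsmul_eq_mul]
    ring
  rw [h3, card_E1_eq hp] at h2
  linarith

open Classical in
/-- `1/p` if `p` divides `l` -/
noncomputable def ka (p : ℕ) (l : ℤ) : ℝ := if (p : ℤ) ∣ l then 1 / (p : ℝ) else 0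

theorem loc (hm : S_MUB) {p : ℕ} (hp : p.Prime) (l : ℤ) (T : ℝ → ℝ) :
    1 / 4 * ∑ g ∈ Dp p, mu g * (kap l g / nz g) * T (nz g) =
      T 1 - (1 + ch p) / p * T p + ch p * ka p l * T (p * p) := by
  classical
  have hp0 : (p : ℝ) ≠ 0 := by exact_mod_cast hp.ne_zero
  rw [sum_split hp, sum_E2 hp]
  rw [sum_UU_const (c := T 1) (fun u hu => by
    have h := (mem_UU u).1 hu
    rw [mu_unit h, kap_unit h, nz_unit h]
    ring)]
  rw [sum_UU_const (c := ch p * ka p l * T (p * p)) (fun u hu => by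
    have h := (mem_UU u).1 hu
    have h1 : nz (u * ((p : ℕ) : ZI)) = p * p := by rw [nz_mul, nz_unit h, nz_P, one_mul]
    have h2 : ct (u * ((p : ℕ) : ZI)) = p := by rw [mul_comm, ct_natmul, ct_unit h, mul_one]
    have h3 : kap l (u * ((p : ℕ) : ZI)) / (p * p) = ka p l := by
      unfold kap ka
      rw [h2]
      split_ifs
      · field_simp
      · simp
    rw [hm.2.2.1 u _ h, mu_P hm hp, h1, h3])]
  have h3 : ∑ g ∈ E1 p, mu g * (kap l g / nz g) * T (nz g) =
      (E1 p).card * (-(1 / p) * T p) := by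
    rw [← nsmul_eq_mul, ← sum_const]
    refine sum_congr rfl fun g hg => ?_
    have h4 := (mem_E1 hp g).1 hg
    have h5 : nz g = p := by rw [← nn_real, h4]
    have h6 : ct g = 1 := by
      have h7 := ct_sq_dvd g
      rw [h4] at h7
      have h8 : ct g ∣ p := (dvd_mul_right _ _).trans h7
      rcases (Nat.dvd_prime hp).1 h8 with h9 | h9
      · exact h9
      · rw [h9] at h7
        have h10 := Nat.le_of_dvd hp.pos h7
        have := hp.one_lt
        nlinarith
    have h7 : kap l g = 1 := by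
      unfold kap
      rw [h6, if_pos (by simp)]
      simp
    rw [Pool.Agent.N157.GN.mu_prime (prime_of_nn hp h4), h5, h7]
    ring
  rw [h3, card_E1_eq hp]
  field_simp
  ring

end Pool.Agent.N650.GN
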