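import Pool.Agent.N650.GN.Mt1xA

/-!
# GN/XMT1, part 2: the sums over numbers coprime to a set of primes (helper650)
-/

set_option autoImplicit false

namespace Pool.Agent.N650.GN

open Finset
open Pool.Agent.N782.GN hiding om
open Pool.Agent.N521.GN

open Classical in
/-- the numbers coprime to the primes in `S` -/
noncomputable def cS (S : Finset ℕ) (x : ℝ) : Finset ZI :=
  (bl x).filter (fun b => ∀ r ∈ S, IsCoprime b ((r : ℕ) : ZI))

/-- sums of the densities -/
noncomputable def FS (S : Finset ℕ) (l : ℤ) (x : ℝ) : ℝ := ∑ b ∈ cS S x, mu b * (kap l b / nz b)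

/-- sums of the densities with logarithms -/
noncomputable def GS (S : Finset ℕ) (l : ℤ) (x : ℝ) : ℝ :=
  1 / 4 * ∑ b ∈ cS S x, mu b * (kap l b / nz b) * Real.log (nz b)

theorem mem_cS (S : Finset ℕ) (x : ℝ) (b : ZI) :
    b ∈ cS S x ↔ (b ≠ 0 ∧ nz b ≤ x) ∧ ∀ r ∈ S, IsCoprime b ((r : ℕ) : ZI) := by
  classical
  unfold cS
  rw [mem_filter, mem_bl]

theorem cS_insert (S : Finset ℕ) (p : ℕ) (x : ℝ) :
    cS (insert p S) x = (co p x).filter (fun b => b ∈ cS S x) := by
  classical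
  ext b
  rw [mem_cS, mem_filter, mem_co, mem_cS]
  simp only [mem_insert, forall_eq_or_imp]
  tauto

theorem cop_primes {p r : ℕ} (hp : p.Prime) (hr : r.Prime) (h : p ≠ r) :
    IsCoprime ((p : ℕ) : ZI) ((r : ℕ) : ZI) := by
  have h1 : Nat.Coprime p r := (Nat.coprime_primes hp hr).2 h
  have h2 : IsCoprime ((p : ℕ) : ℤ) ((r : ℕ) : ℤ) := Nat.isCoprime_iff_coprime.2 h1
  have h3 := h2.map (Int.castRingHom ZI)
  simpa using h3

theorem decS (hm : S_MUB) {p : ℕ} (hp : p.Prime) {S : Finset ℕ} (hS : ∀ r ∈ S, r.Prime)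
    (hpS : p ∉ S) (φ : ZI → ℝ) (y : ℝ) :
    ∑ z ∈ cS S y, mu z * φ z =
      1 / 4 * ∑ g ∈ Dp p, mu g * ∑ b ∈ cS (insert p S) (y / nz g), mu b * φ (g * b) := by
  classical
  have h1 := dec hm hp (fun z => if (∀ r ∈ S, IsCoprime z ((r : ℕ) : ZI)) then φ z else 0) y
  have h2 : ∑ z ∈ cS S y, mu z * φ z = ∑ z ∈ bl y, mu z *
      (if (∀ r ∈ S, IsCoprime z ((r : ℕ) : ZI)) then φ z else 0) := by
    unfold cS
    rw [sum_filter]
    refine sum_congr rfl fun z _ => ?_
    split_ifs <;> simp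
  rw [h2, h1]
  congr 1
  refine sum_congr rfl fun g hg => ?_
  congr 1
  have h3 : cS (insert p S) (y / nz g) =
      (co p (y / nz g)).filter (fun b => ∀ r ∈ S, IsCoprime b ((r : ℕ) : ZI)) := by
    ext b
    rw [mem_cS, mem_filter, mem_co]
    simp only [mem_insert, forall_eq_or_imp]
    tauto
  rw [h3, sum_filter]
  refine sum_congr rfl fun b _ => ?_
  have h4 : (∀ r ∈ S, IsCoprime (g * b) ((r : ℕ) : ZI)) ↔ ∀ r ∈ S, IsCoprime b ((r : ℕ) : ZI) := by
    refine forall₂_congr fun r hr => ?_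
    rw [IsCoprime.mul_left_iff, and_iff_right_iff_imp]
    intro _
    refine (cop_primes hp (hS r hr) ?_).of_isCoprime_of_dvd_left ((mem_Dp hp g).1 hg)
    rintro rfl
    exact hpS hr
  by_cases h5 : ∀ r ∈ S, IsCoprime b ((r : ℕ) : ZI)
  · rw [if_pos (h4.2 h5), if_pos h5]
  · rw [if_neg (fun h => h5 (h4.1 h)), if_neg h5, mul_zero]

theorem kap_g {p : ℕ} (hp : p.Prime) {g b : ZI} (hg : g ∈ Dp p)
    (hb : IsCoprime b ((p : ℕ) : ZI)) (l : ℤ) :
    kap l (g * b) / nz (g * b) = (kap l g / nz g) * (kap l b / nz b) := by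
  rw [kap_mul (cop_of_pow hp (Dp_nn hp hg) hb), nz_mul, mul_div_mul_comm]

theorem recF (hm : S_MUB) {p : ℕ} (hp : p.Prime) {S : Finset ℕ} (hS : ∀ r ∈ S, r.Prime)
    (hpS : p ∉ S) (l : ℤ) (x : ℝ) :
    FS S l x = FS (insert p S) l x - (1 + ch p) / p * FS (insert p S) l (x / p) +
      ch p * ka p l * FS (insert p S) l (x / (p * p)) := by
  have h1 := loc hm hp l (fun N => FS (insert p S) l (x / N))
  simp only [div_one] at h1
  rw [← h1]
  unfold FS
  rw [decS hm hp hS hpS (fun b => kap l b / nz b) x]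
  congr 1
  refine sum_congr rfl fun g hg => ?_
  rw [mul_assoc]
  congr 1
  rw [mul_sum]
  refine sum_congr rfl fun b hb => ?_
  rw [cS_insert, mem_filter, mem_co] at hb
  rw [kap_g hp hg hb.1.2]
  ring

theorem recG (hm : S_MUB) {p : ℕ} (hp : p.Prime) {S : Finset ℕ} (hS : ∀ r ∈ S, r.Prime)
    (hpS : p ∉ S) (l : ℤ) (x : ℝ) :
    GS S l x = GS (insert p S) l x -
      (1 + ch p) / p * (GS (insert p S) l (x / p) +
        1 / 4 * Real.log p * FS (insert p S) l (x / p)) +
      ch p * ka p l * (GS (insert p S) l (x / (p * p)) +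
        1 / 4 * Real.log (p * p) * FS (insert p S) l (x / (p * p))) := by
  have h1 := loc hm hp l (fun N => GS (insert p S) l (x / N) +
    1 / 4 * Real.log N * FS (insert p S) l (x / N))
  simp only [div_one, Real.log_one, mul_zero, zero_mul, add_zero] at h1
  rw [← h1]
  unfold FS GS
  have h2 : ∑ b ∈ cS S x, mu b * (kap l b / nz b) * Real.log (nz b) =
      ∑ b ∈ cS S x, mu b * ((kap l b / nz b) * Real.log (nz b)) :=
    sum_congr rfl fun b _ => by ring
  rw [h2, decS hm hp hS hpS (fun b => (kap l b / nz b) * Real.log (nz b)) x]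
  congr 1
  rw [mul_sum]
  refine sum_congr rfl fun g hg => ?_
  have hg0 : nz g ≠ 0 := by
    have := nz_pos (Dp_ne hp hg)
    linarith
  have h3 : ∑ b ∈ cS (insert p S) (x / nz g),
      mu b * ((kap l (g * b) / nz (g * b)) * Real.log (nz (g * b))) =
      (kap l g / nz g) * (∑ b ∈ cS (insert p S) (x / nz g),
        mu b * (kap l b / nz b) * Real.log (nz b) +
        Real.log (nz g) * ∑ b ∈ cS (insert p S) (x / nz g), mu b * (kap l b / nz b)) := by
    have h4 : Real.log (nz g) * ∑ b ∈ cS (insert p S) (x / nz g), mu b * (kap l b / nz b) =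
        ∑ b ∈ cS (insert p S) (x / nz g), Real.log (nz g) * (mu b * (kap l b / nz b)) :=
      mul_sum _ _ _
    rw [h4, ← sum_add_distrib, mul_sum]
    refine sum_congr rfl fun b hb => ?_
    rw [cS_insert, mem_filter, mem_co] at hb
    have hb0 : nz b ≠ 0 := by
      have := nz_pos hb.1.1.1
      linarith
    rw [kap_g hp hg hb.1.2, nz_mul, Real.log_mul hg0 hb0]
    ring
  rw [h3]
  ring

/-! ### the local factors -/

/-- the local factor at `p` -/
noncomputable def del (p : ℕ) (l : ℤ) : ℝ := 1 - (1 + ch p) / p + ch p * ka p l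

/-- the product of the inverses of the local factors -/
noncomputable def gam (S : Finset ℕ) (l : ℤ) : ℝ := ∏ p ∈ S, (del p l)⁻¹

theorem ka_bd (p : ℕ) (l : ℤ) : 0 ≤ ka p l ∧ ka p l ≤ 1 / p := by
  unfold ka
  split_ifs
  · exact ⟨by positivity, le_rfl⟩
  · exact ⟨le_rfl, by positivity⟩

theorem del_ge {p : ℕ} (hp : p.Prime) (l : ℤ) : 1 / 2 ≤ del p l := by
  unfold del ka
  rcases ch_cases hp with ⟨h1, h2⟩ | ⟨h1, h2⟩ | ⟨h1, h2⟩
  · subst h1
    rw [h2]
    norm_num
  · have h3 : (3 : ℝ) ≤ p := by exact_mod_cast h1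
    have h4 : 1 / (p : ℝ) ≤ 1 / 3 := by gcongr
    rw [h2]
    split_ifs
    · have : (1 + -1 : ℝ) / p = 0 := by norm_num
      rw [this]
      linarith
    · norm_num
  · have h3 : (5 : ℝ) ≤ p := by exact_mod_cast h1
    have h4 : 1 / (p : ℝ) ≤ 1 / 5 := by gcongr
    have h5 : (1 + 1 : ℝ) / p = 2 * (1 / p) := by ring
    have h6 : 0 ≤ 1 / (p : ℝ) := by positivity
    rw [h2, h5]
    split_ifs
    · linarith
    · linarith

theorem gam_insert {p : ℕ} (hp : p.Prime) {S : Finset ℕ} (hpS : p ∉ S) (l : ℤ) :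
    gam (insert p S) l * del p l = gam S l := by
  have h := del_ge hp l
  have h0 : del p l ≠ 0 := by linarith
  unfold gam
  rw [prod_insert hpS]
  field_simp

theorem recH (hm : S_MUB) {p : ℕ} (hp : p.Prime) {S : Finset ℕ} (hS : ∀ r ∈ S, r.Prime)
    (hpS : p ∉ S) (l : ℤ) (x s : ℝ) :
    GS (insert p S) l x + gam (insert p S) l * s = (GS S l x + gam S l * s) +
      (1 + ch p) / p * (GS (insert p S) l (x / p) + gam (insert p S) l * s) -
      ch p * ka p l * (GS (insert p S) l (x / (p * p)) + gam (insert p S) l * s) +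
      (1 + ch p) / p * (1 / 4 * Real.log p * FS (insert p S) l (x / p)) -
      ch p * ka p l * (1 / 4 * Real.log (p * p) * FS (insert p S) l (x / (p * p))) := by
  rw [recG hm hp hS hpS l x, ← gam_insert hp hpS l]
  unfold del
  ring

end Pool.Agent.N650.GN
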